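import Pool.Agent.H27.TF.Sai

/-!
# Project TF (Terao over finite fields), module CNT (helper27)
-/

set_option autoImplicit false

open MvPolynomial Module

namespace Pool.Agent.H27.TF

open Pool.Agent.H77.TF

theorem lin_hom {K : Type} [Field K] {l : ℕ} (a : Fin l → K) : (lin a).IsHomogeneous 1 := by
  unfold lin
  exact IsHomogeneous.sum _ _ _ fun i _ => isHomogeneous_C_mul_X _ _

/-- a determinant with homogeneous rows -/
theorem det_hom {K : Type} [Field K] {l : ℕ} {w : Fin l → Fin l → MvPolynomial (Fin l) K}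
    {e : Fin l → ℕ} (h : ∀ j i, (w j i).IsHomogeneous (e j)) :
    (Matrix.of w).det.IsHomogeneous (∑ j, e j) := by
  rw [Matrix.det_apply]
  refine IsHomogeneous.sum _ _ _ fun σ _ => ?_
  have h1 : (∏ i, (Matrix.of w) (σ i) i).IsHomogeneous (∑ j, e j) := by
    have h2 := IsHomogeneous.prod Finset.univ (fun i => w (σ i) i) (fun i => e (σ i))
      fun i _ => h (σ i) i
    rw [Equiv.sum_comp σ e] at h2
    exact h2
  rcases Int.units_eq_one_or (Equiv.Perm.sign σ) with h3 | h3
  · rw [h3, one_smul]; exact h1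
  · rw [h3, Units.neg_smul, one_smul]
    have h4 := h1.mul (isHomogeneous_C (Fin l) (-1 : K))
    rw [add_zero] at h4
    have h5 : (∏ i, (Matrix.of w) (σ i) i) * C (-1 : K) = -∏ i, (Matrix.of w) (σ i) i := by
      rw [map_neg, C_1, mul_neg, mul_one]
    rwa [h5] at h4

/-- the determinant of a basis is nonzero -/
theorem det_basis {K : Type} [Field K] {l : ℕ} {ν : Type} [Fintype ν] (A : ν → Fin l → K)
    (hQ : ∏ k, lin (A k) ≠ 0) (b : Basis (Fin l) (MvPolynomial (Fin l) K) (LD A)) :
    (Matrix.of fun j => (b j : Fin l → MvPolynomial (Fin l) K)).det ≠ 0 := by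
  classical
  intro hdet
  have hmem : ∀ i : Fin l, Pi.single i (∏ k, lin (A k)) ∈ LD A := by
    intro i k
    have h1 : evl (A k) (Pi.single i (∏ k, lin (A k))) = C (A k i) * ∏ k, lin (A k) := by
      unfold evl
      rw [Finset.sum_eq_single i]
      · rw [Pi.single_eq_same]
      · intro j _ hj
        rw [Pi.single_eq_of_ne hj, mul_zero]
      · exact fun h => absurd (Finset.mem_univ _) h
    rw [h1]
    exact dvd_mul_of_dvd_right (Finset.dvd_prod_of_mem _ (Finset.mem_univ k)) _
  let R : Matrix (Fin l) (Fin l) (MvPolynomial (Fin l) K) := Matrix.of fun i j =>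
    b.repr ⟨_, hmem i⟩ j
  have h1 : R * (Matrix.of fun j => (b j : Fin l → MvPolynomial (Fin l) K)) =
      (∏ k, lin (A k)) • (1 : Matrix (Fin l) (Fin l) (MvPolynomial (Fin l) K)) := by
    ext1 i i'
    rw [Matrix.mul_apply]
    have h2 := congrArg (fun w : LD A => (w : Fin l → MvPolynomial (Fin l) K) i')
      (b.sum_repr ⟨_, hmem i⟩)
    simp only [] at h2
    rw [AddSubmonoidClass.coe_finsetSum, Finset.sum_apply] at h2
    rw [Matrix.smul_apply, smul_eq_mul]
    refine Eq.trans ?_ (h2.trans ?_)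
    · rfl
    · by_cases h : i = i'
      · subst h
        rw [Matrix.one_apply_eq, mul_one]
        exact Pi.single_eq_same _ _
      · rw [Matrix.one_apply_ne h, mul_zero]
        exact Pi.single_eq_of_ne (Ne.symm h) _
  have h4 := congrArg Matrix.det h1
  rw [Matrix.det_mul, hdet, mul_zero, Matrix.det_smul, Matrix.det_one, mul_one] at h4
  exact pow_ne_zero _ hQ h4.symm

/-- the Moore determinant does not vanish -/
theorem det_frob (hM : S_MOO) (K : Type) [Field K] [Fintype K] (l : ℕ) :
    (Matrix.of fun (k : Fin l) (i : Fin l) => frob K l k i).det ≠ 0 := by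
  classical
  intro hdet
  obtain ⟨v, hv0, hv⟩ := Matrix.exists_vecMul_eq_zero_iff.2 hdet
  let F := FractionRing (MvPolynomial (Fin l) K)
  have hinj : Function.Injective (algebraMap (MvPolynomial (Fin l) K) F) :=
    IsFractionRing.injective _ _
  let x : Fin l → F := fun i => algebraMap (MvPolynomial (Fin l) K) F (X i)
  have h1 : finrank K (Submodule.span K (Set.range x)) < l := by
    refine hM K F l l x (fun k => algebraMap _ F (v k)) ?_ fun i => ?_
    · intro h
      refine hv0 (funext fun k => hinj ?_)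
      have h' : algebraMap (MvPolynomial (Fin l) K) F (v k) = 0 := congrFun h k
      rw [h', Pi.zero_apply, map_zero]
    · have h2 := congrFun hv i
      have h3 := congrArg (algebraMap (MvPolynomial (Fin l) K) F) h2
      rw [Pi.zero_apply, map_zero] at h3
      rw [← h3]
      simp only [Matrix.vecMul, dotProduct, map_sum, map_mul, Matrix.of_apply, frob, map_pow]
      rfl
  have h2 : LinearIndependent K x := by
    have h3 : LinearIndependent K (X : Fin l → MvPolynomial (Fin l) K) := linearIndependent_X _ _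
    exact h3.map' ((IsScalarTower.toAlgHom K (MvPolynomial (Fin l) K) F).toLinearMap)
      (LinearMap.ker_eq_bot.2 hinj)
  rw [finrank_span_eq_card h2, Fintype.card_fin] at h1
  exact lt_irrefl _ h1

theorem cnt (hP : S_PRI) (hD : S_DET) (hM : S_MOO) (hC : S_CFS) : S_CNT := by
  classical
  intro K _ _ l ν _ A e hl hA he hthr
  by_contra hcon
  push Not at hcon
  obtain ⟨b, hb⟩ := he
  obtain ⟨c, hc1, hc2, -⟩ := hC K l ν A e b hb
  have hlin : ∀ i, lin (A i) ≠ 0 := fun i => (hP K l (A i) (hA.1 i)).1.ne_zero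
  have hprod : ∏ i, lin (A i) ≠ 0 := Finset.prod_ne_zero_iff.2 fun i _ => hlin i
  have hdb := det_basis A hprod b
  -- `n ≤ ∑ e j`
  have hn : Fintype.card ν ≤ ∑ j, e j := by
    obtain ⟨m, hm⟩ : ∏ i, lin (A i) ∣
        (Matrix.of fun j => (b j : Fin l → MvPolynomial (Fin l) K)).det :=
      prod_dvd hP hA Finset.univ fun i _ => hD K l (A i) (hA.1 i) _ fun k => (b k).2 i
    have h1 := (det_hom hb).totalDegree hdb
    have h2 : (∏ i, lin (A i)).totalDegree = Fintype.card ν := by
      have h3 := IsHomogeneous.prod Finset.univ (fun i => lin (A i)) (fun _ => 1)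
        fun i _ => lin_hom (A i)
      rw [h3.totalDegree hprod]
      simp
    have hm0 : m ≠ 0 := by
      rintro rfl
      rw [mul_zero] at hm
      exact hdb hm
    rw [hm, totalDegree_mul_of_isDomain hprod hm0, h2] at h1
    omega
  -- the permutation
  have hdc : (Matrix.of fun (k : Fin l) (j : Fin l) => c k j).det ≠ 0 := by
    intro h0
    have h1 : (Matrix.of fun (k : Fin l) (i : Fin l) => frob K l k i) =
        (Matrix.of fun (k : Fin l) (j : Fin l) => c k j) *
          (Matrix.of fun j => (b j : Fin l → MvPolynomial (Fin l) K)) := by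
      ext1 k i
      rw [Matrix.mul_apply, Matrix.of_apply, hc1 k, Finset.sum_apply]
      rfl
    have h2 := congrArg Matrix.det h1
    rw [Matrix.det_mul, h0, zero_mul] at h2
    exact det_frob hM K l h2
  obtain ⟨σ, hσ⟩ : ∃ σ : Equiv.Perm (Fin l), ∀ i, c (σ i : Fin l) i ≠ 0 := by
    by_contra h
    push Not at h
    refine hdc ?_
    rw [Matrix.det_apply]
    refine Finset.sum_eq_zero fun σ _ => ?_
    obtain ⟨i, hi⟩ := h σ
    rw [Finset.prod_eq_zero (Finset.mem_univ i) (by rw [Matrix.of_apply]; exact hi), smul_zero]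
  have he1 : ∀ i, e i ≤ Fintype.card K ^ ((σ i : Fin l) : ℕ) := by
    intro i
    by_contra h
    push Not at h
    exact hσ i (hc2 _ _ h)
  have he2 : ∑ j, e j ≤ ∑ k : Fin l, min (Fintype.card K ^ (k : ℕ)) (Fintype.card K ^ (l - 2) - 1) := by
    rw [← Equiv.sum_comp σ (fun k : Fin l =>
      min (Fintype.card K ^ (k : ℕ)) (Fintype.card K ^ (l - 2) - 1))]
    refine Finset.sum_le_sum fun i _ => le_min (he1 i) ?_
    have := hcon i
    omega
  -- the sum
  obtain ⟨r, rfl⟩ : ∃ r, l = r + 3 := ⟨l - 3, by omega⟩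
  have hq : 0 < Fintype.card K := Fintype.card_pos
  have hq1 : 1 < Fintype.card K := Fintype.one_lt_card
  rw [Fin.sum_univ_eq_sum_range
    (fun k => min (Fintype.card K ^ k) (Fintype.card K ^ (r + 3 - 2) - 1)),
    Finset.sum_range_succ, Finset.sum_range_succ, show r + 3 - 2 = r + 1 by omega] at he2
  have h3 : ∑ k ∈ Finset.range (r + 1), min (Fintype.card K ^ k) (Fintype.card K ^ (r + 1) - 1) ≤
      ∑ k ∈ Finset.range (r + 1), Fintype.card K ^ k :=
    Finset.sum_le_sum fun k _ => min_le_left _ _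
  have h4 : ∑ k ∈ Finset.range (r + 1), Fintype.card K ^ k =
      1 + ∑ k ∈ Finset.Ico 1 (r + 1), Fintype.card K ^ k := by
    rw [Finset.range_eq_Ico, Finset.sum_eq_sum_Ico_succ_bot (by omega), pow_zero]
  have h5 := min_le_right (Fintype.card K ^ (r + 1)) (Fintype.card K ^ (r + 1) - 1)
  have h6 := min_le_right (Fintype.card K ^ (r + 1 + 1)) (Fintype.card K ^ (r + 1) - 1)
  have h7 : 0 < Fintype.card K ^ (r + 1) := pow_pos hq _
  unfold thr at hthr
  rw [show r + 3 - 2 = r + 1 by omega] at hthr
  omega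

end Pool.Agent.H27.TF
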