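import Pool.Agent.H77.TF.Stm2

/-!
# Project TG (Terao over finite fields), module PL3 (helper27)
-/

set_option autoImplicit false

open MvPolynomial Module

namespace Pool.Agent.H27.TF

open Pool.Agent.H77.TF

theorem sum_prod {K : Type} [Field K] [Fintype K] {ι : Type} [Fintype ι] (w : ι → Fin 3 → K)
    (h : Fintype.card ι < (Fintype.card K - 1) * 3) :
    ∑ p : Fin 3 → K, ∏ j, (w j ⬝ᵥ p) = 0 := by
  classical
  have h2 : (∏ j, lin (w j)).totalDegree < (Fintype.card K - 1) * Fintype.card (Fin 3) := by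
    refine lt_of_le_of_lt ((totalDegree_finsetProd _ _).trans ?_)
      (by rw [Fintype.card_fin]; exact h)
    refine (Finset.sum_le_card_nsmul _ _ 1 fun j _ => ?_).trans ?_
    · have h3 : (lin (w j)).IsHomogeneous 1 := by
        unfold lin
        exact IsHomogeneous.sum _ _ _ fun i _ => isHomogeneous_C_mul_X _ _
      exact h3.totalDegree_le
    · simp
  have h1 := MvPolynomial.sum_eval_eq_zero (∏ j, lin (w j)) h2
  refine Eq.trans (Finset.sum_congr rfl fun p _ => ?_) h1
  rw [map_prod]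
  refine Finset.prod_congr rfl fun j _ => ?_
  simp [lin, dotProduct]

/-- the functional `a ↦ a ⬝ p` -/
theorem exists_normal {K : Type} [Field K] (W : Submodule K (Fin 3 → K)) (hW : finrank K W = 2) :
    ∃ p : Fin 3 → K, p ≠ 0 ∧ ∀ a, a ∈ W ↔ a ⬝ᵥ p = 0 := by
  classical
  have h1 : W < ⊤ := by
    rw [lt_top_iff_ne_top]
    rintro rfl
    rw [finrank_top, finrank_fin_fun] at hW
    omega
  obtain ⟨f, hf, hWf⟩ := W.exists_le_ker_of_lt_top h1
  have h2 : LinearMap.ker f ≠ ⊤ := fun h => hf (LinearMap.ker_eq_top.1 h)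
  have h3 : W = LinearMap.ker f := by
    refine Submodule.eq_of_le_of_finrank_le hWf ?_
    have h4 := Submodule.finrank_lt (lt_top_iff_ne_top.2 h2).ne
    rw [finrank_fin_fun] at h4
    omega
  have h5 : ∀ a : Fin 3 → K, f a = a ⬝ᵥ fun j => f (Pi.single j 1) := by
    intro a
    rw [LinearMap.pi_apply_eq_sum_univ f a]
    refine Finset.sum_congr rfl fun i _ => ?_
    rw [smul_eq_mul]
    congr 2
    funext j
    by_cases h : i = j
    · subst h; simp
    · simp [Pi.single_apply, h, Ne.symm h]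
  refine ⟨fun j => f (Pi.single j 1), ?_, fun a => ?_⟩
  · intro h
    refine hf (LinearMap.ext fun a => ?_)
    rw [h5 a, h, dotProduct_zero, LinearMap.zero_apply]
  · rw [h3, LinearMap.mem_ker, ← h5 a]

theorem exists_plane {K : Type} [Field K] (p : Fin 3 → K) (hp : p ≠ 0) :
    ∃ W : Submodule K (Fin 3 → K), finrank K W = 2 ∧ ∀ a, a ∈ W ↔ a ⬝ᵥ p = 0 := by
  classical
  let f : (Fin 3 → K) →ₗ[K] K :=
    { toFun := fun a => a ⬝ᵥ p
      map_add' := fun a b => add_dotProduct a b p
      map_smul' := fun c a => smul_dotProduct c a p }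
  obtain ⟨j, hj⟩ := Function.ne_iff.1 hp
  have hf : f ≠ 0 := by
    intro h
    refine hj ?_
    have h1 := congrArg (fun g => g (Pi.single j 1)) h
    have h2 : (Pi.single j 1 : Fin 3 → K) ⬝ᵥ p = 0 := h1
    rwa [single_dotProduct, one_mul] at h2
  refine ⟨LinearMap.ker f, ?_, fun a => LinearMap.mem_ker⟩
  have h1 := LinearMap.finrank_range_add_finrank_ker f
  have h2 : LinearMap.range f = ⊤ := LinearMap.range_eq_top.2 (LinearMap.surjective hf)
  rw [h2, finrank_top, finrank_self, finrank_fin_fun] at h1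
  omega

theorem one_left {K : Type} [Field K] [Fintype K] {ι : Type} [Fintype ι] (w : ι → Fin 3 → K)
    (hι : Fintype.card ι = 2 * (Fintype.card K - 1))
    (W₁ : Submodule K (Fin 3 → K)) (hW : finrank K W₁ = 2) (h1 : ∀ j, w j ∉ W₁)
    (h2 : ∀ W : Submodule K (Fin 3 → K), finrank K W = 2 → W ≠ W₁ → ∃ j, w j ∈ W) : False := by
  classical
  have hq := Fintype.one_lt_card (α := K)
  obtain ⟨p₁, hp₁, hp⟩ := exists_normal W₁ hW
  have hsum := sum_prod w (by omega)
  have hne : ∀ j, w j ⬝ᵥ p₁ ≠ 0 := fun j h => h1 j ((hp _).2 h)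
  obtain ⟨m, hm⟩ := Function.ne_iff.1 hp₁
  rw [Pi.zero_apply] at hm
  let emb : Kˣ ↪ (Fin 3 → K) := ⟨fun c => (c : K) • p₁, by
    intro c d h
    have h3 := congrFun h m
    simp only [Pi.smul_apply, smul_eq_mul] at h3
    exact Units.ext (mul_right_cancel₀ hm h3)⟩
  have h3 : ∑ p ∈ Finset.univ.map emb, ∏ j, (w j ⬝ᵥ p) = ∑ p : Fin 3 → K, ∏ j, (w j ⬝ᵥ p) := by
    refine Finset.sum_subset (Finset.subset_univ _) fun p _ hpn => ?_
    by_cases hp0 : p = 0
    · subst hp0
      haveI : Nonempty ι := by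
        rw [← Fintype.card_pos_iff]
        omega
      obtain ⟨j⟩ := ‹Nonempty ι›
      exact Finset.prod_eq_zero (Finset.mem_univ j) (dotProduct_zero _)
    · obtain ⟨W, hWf, hWp⟩ := exists_plane p hp0
      by_cases hWW : W = W₁
      · exfalso
        refine hpn ?_
        have h4 : ∀ a, a ⬝ᵥ p₁ = 0 → a ⬝ᵥ p = 0 := by
          intro a ha
          rw [← hWp, hWW, hp]
          exact ha
        have h5 : ∀ i, p₁ m * p i = p₁ i * p m := by
          intro i
          have h6 := h4 (p₁ m • Pi.single i 1 - p₁ i • Pi.single m 1) (by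
            rw [sub_dotProduct, smul_dotProduct, smul_dotProduct, single_dotProduct,
              single_dotProduct, smul_eq_mul, smul_eq_mul]
            ring)
          rw [sub_dotProduct, smul_dotProduct, smul_dotProduct, single_dotProduct,
              single_dotProduct, smul_eq_mul, smul_eq_mul] at h6
          linear_combination h6
        have h7 : p m ≠ 0 := by
          intro h
          refine hp0 (funext fun i => ?_)
          have h8 := h5 i
          rw [h, mul_zero] at h8
          exact (mul_eq_zero.1 h8).resolve_left hm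
        rw [Finset.mem_map]
        refine ⟨Units.mk0 (p m / p₁ m) (div_ne_zero h7 hm), Finset.mem_univ _, ?_⟩
        funext i
        change p m / p₁ m * p₁ i = p i
        field_simp
        linear_combination (-1 : K) * h5 i
      · obtain ⟨j, hj⟩ := h2 W hWf hWW
        exact Finset.prod_eq_zero (Finset.mem_univ j) ((hWp _).1 hj)
  rw [hsum, Finset.sum_map] at h3
  have h4 : ∀ c : Kˣ, ∏ j, (w j ⬝ᵥ emb c) = ∏ j, (w j ⬝ᵥ p₁) := by
    intro c
    have h5 : ∀ j, w j ⬝ᵥ emb c = (c : K) * (w j ⬝ᵥ p₁) := by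
      intro j
      change w j ⬝ᵥ ((c : K) • p₁) = _
      rw [dotProduct_smul, smul_eq_mul]
    rw [Finset.prod_congr rfl fun j _ => h5 j, Finset.prod_mul_distrib, Finset.prod_const,
      Finset.card_univ, hι, mul_comm 2, pow_mul, FiniteField.pow_card_sub_one_eq_one _ c.ne_zero,
      one_pow, one_mul]
  rw [Finset.sum_congr rfl fun c _ => h4 c, Finset.sum_const, Finset.card_univ,
    Fintype.card_units, nsmul_eq_mul, Nat.cast_sub hq.le, FiniteField.cast_card_eq_zero] at h3
  have h6 : (∏ j, (w j ⬝ᵥ p₁)) ≠ 0 := Finset.prod_ne_zero_iff.2 fun j _ => hne j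
  refine h6 ?_
  linear_combination (-1 : K) * h3

theorem exists_mem {K : Type} [Field K] (W W' : Submodule K (Fin 3 → K)) (h : finrank K W = 2)
    (h' : finrank K W' = 2) : ∃ r, r ≠ 0 ∧ r ∈ W ∧ r ∈ W' := by
  have h1 := Submodule.finrank_sup_add_finrank_inf_eq W W'
  have h2 := Submodule.finrank_le (W ⊔ W')
  rw [finrank_fin_fun] at h2
  have h3 : 0 < finrank K ↥(W ⊓ W') := by omega
  obtain ⟨x, hx⟩ := (finrank_pos_iff_exists_ne_zero (R := K) (M := ↥(W ⊓ W'))).1 h3
  exact ⟨x, fun h => hx (Subtype.ext h), x.2.1, x.2.2⟩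

theorem pl3 : S_PL3 := by
  classical
  intro K _ _ ν _ A
  have hq := Fintype.one_lt_card (α := K)
  haveI : Finite (Submodule K (Fin 3 → K)) :=
    Finite.of_injective (fun W : Submodule K (Fin 3 → K) => (W : Set (Fin 3 → K)))
      SetLike.coe_injective
  let T := {W : Submodule K (Fin 3 → K) // finrank K W = 2 ∧ ∀ i, A i ∉ W}
  letI : Fintype T := Fintype.ofFinite T
  have hv : uncD A = Fintype.card T := Nat.card_eq_fintype_card
  rw [hv]
  have key : ∀ (W₁ : T) (κ : Type) [Fintype κ] (u : κ → Fin 3 → K),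
      Fintype.card ν + Fintype.card κ = 2 * (Fintype.card K - 1) → (∀ k, u k ∉ W₁.1) →
      (∀ W : T, W ≠ W₁ → ∃ k, u k ∈ W.1) → False := by
    intro W₁ κ _ u hc h1 h2
    refine one_left (Sum.elim A u) (by rw [Fintype.card_sum]; exact hc) W₁.1 W₁.2.1 ?_ ?_
    · rintro (i | k)
      · exact W₁.2.2 i
      · exact h1 k
    · intro W hW hne
      by_cases h : ∃ i, A i ∈ W
      · obtain ⟨i, hi⟩ := h
        exact ⟨Sum.inl i, hi⟩
      · push Not at h
        obtain ⟨k, hk⟩ := h2 ⟨W, hW, h⟩ fun he => hne (congrArg Subtype.val he)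
        exact ⟨Sum.inr k, hk⟩
  have sep : ∀ W W₁ : T, W ≠ W₁ → ∃ a, a ∈ W.1 ∧ a ∉ W₁.1 := by
    intro W W₁ hne
    by_contra h
    push Not at h
    exact hne (Subtype.ext (Submodule.eq_of_le_of_finrank_eq h (W.2.1.trans W₁.2.1.symm)))
  constructor
  · by_contra hcon
    push Not at hcon
    obtain ⟨h0, hlt⟩ := hcon
    have hpos : 0 < Fintype.card T := Nat.pos_of_ne_zero h0
    obtain ⟨W₁⟩ := Fintype.card_pos_iff.1 hpos
    have hex : ∀ W : ↥((Finset.univ : Finset T) \ {W₁}), ∃ a, a ∈ W.1.1 ∧ a ∉ W₁.1 := by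
      intro W
      refine sep W.1 W₁ fun h => ?_
      have h1 := W.2
      rw [Finset.mem_sdiff, Finset.mem_singleton] at h1
      exact h1.2 h
    choose u hu1 hu2 using hex
    obtain ⟨a, ha⟩ : ∃ a, a ∉ W₁.1 := by
      by_contra h
      push Not at h
      have h1 : W₁.1 = ⊤ := Submodule.eq_top_iff'.2 h
      have h2 := W₁.2.1
      rw [h1, finrank_top, finrank_fin_fun] at h2
      omega
    refine key W₁ (↥((Finset.univ : Finset T) \ {W₁}) ⊕
      Fin (2 * Fintype.card K - 1 - Fintype.card ν - Fintype.card T)) (Sum.elim u fun _ => a)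
      ?_ ?_ ?_
    · rw [Fintype.card_sum, Fintype.card_coe, Fintype.card_fin,
        Finset.card_sdiff_of_subset (Finset.subset_univ _), Finset.card_singleton,
        Finset.card_univ]
      omega
    · rintro (W | k)
      · exact hu2 W
      · exact ha
    · intro W hW
      have hm : W ∈ (Finset.univ : Finset T) \ {W₁} := by
        rw [Finset.mem_sdiff, Finset.mem_singleton]
        exact ⟨Finset.mem_univ _, hW⟩
      exact ⟨Sum.inl ⟨W, hm⟩, hu1 ⟨W, hm⟩⟩
  · intro heq
    by_cases hT1 : Fintype.card T ≤ 1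
    · by_cases hne : Nonempty T
      · obtain ⟨W₁⟩ := hne
        obtain ⟨r, hr, hr1, -⟩ := exists_mem W₁.1 W₁.1 W₁.2.1 W₁.2.1
        refine ⟨r, hr, fun W hW hWA => ?_⟩
        have h1 : (⟨W, hW, hWA⟩ : T) = W₁ := Fintype.card_le_one_iff.1 hT1 _ _
        have h2 := congrArg Subtype.val h1
        simp only [] at h2
        rw [h2]
        exact hr1
      · refine ⟨Pi.single 0 1, ?_, fun W hW hWA => absurd ⟨(⟨W, hW, hWA⟩ : T)⟩ hne⟩
        intro h
        have h1 := congrFun h 0
        simp at h1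
    · by_contra hno
      push Not at hno
      push Not at hT1
      obtain ⟨W₁, W₂, h12⟩ := Fintype.one_lt_card_iff.1 hT1
      obtain ⟨r, hr0, hr1, hr2⟩ := exists_mem W₁.1 W₂.1 W₁.2.1 W₂.2.1
      obtain ⟨W, hWf, hWA, hrW⟩ := hno r hr0
      let W₃ : T := ⟨W, hWf, hWA⟩
      obtain ⟨w, hw0, hw2, hw3⟩ := exists_mem W₂.1 W₃.1 W₂.2.1 W₃.2.1
      have h13 : W₁ ≠ W₃ := by
        rintro h
        rw [h] at hr1
        exact hrW hr1
      have h23 : W₂ ≠ W₃ := by
        rintro h
        rw [h] at hr2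
        exact hrW hr2
      have hw1 : w ∉ W₁.1 := by
        intro hw1
        have h1 := Submodule.finrank_sup_add_finrank_inf_eq W₁.1 W₂.1
        have h2 : W₁.1 < W₁.1 ⊔ W₂.1 := by
          refine lt_of_le_of_ne le_sup_left fun h => ?_
          have h3 : W₂.1 ≤ W₁.1 := by
            rw [h]
            exact le_sup_right
          exact h12 (Subtype.ext (Submodule.eq_of_le_of_finrank_eq h3
            (W₂.2.1.trans W₁.2.1.symm)).symm)
        have h3 := Submodule.finrank_lt_finrank_of_lt h2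
        rw [W₁.2.1, W₂.2.1] at h1
        rw [W₁.2.1] at h3
        have h4 : finrank K ↥(W₁.1 ⊓ W₂.1) ≤ 1 := by omega
        obtain ⟨v, hv⟩ := finrank_le_one_iff.1 h4
        obtain ⟨c, hc⟩ := hv ⟨w, hw1, hw2⟩
        obtain ⟨d, hd⟩ := hv ⟨r, hr1, hr2⟩
        have hc' : c • (v : Fin 3 → K) = w := congrArg Subtype.val hc
        have hd' : d • (v : Fin 3 → K) = r := congrArg Subtype.val hd
        have hc0 : c ≠ 0 := by
          rintro rfl
          rw [zero_smul] at hc'
          exact hw0 hc'.symm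
        refine hrW ?_
        have h5 : r = (d * c⁻¹) • w := by
          rw [← hc', smul_smul, mul_assoc, inv_mul_cancel₀ hc0, mul_one, hd']
        rw [h5]
        exact W.smul_mem _ hw3
      have hex : ∀ W : ↥((Finset.univ : Finset T) \ {W₁, W₂, W₃}),
          ∃ a, a ∈ W.1.1 ∧ a ∉ W₁.1 := by
        intro W
        refine sep W.1 W₁ fun h => ?_
        have h1 := W.2
        rw [Finset.mem_sdiff, Finset.mem_insert] at h1
        exact h1.2 (Or.inl h)
      choose u hu1 hu2 using hex
      have hc3 : ({W₁, W₂, W₃} : Finset T).card = 3 := Finset.card_eq_three.2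
        ⟨W₁, W₂, W₃, h12, h13, h23, rfl⟩
      have hle : 3 ≤ Fintype.card T := by
        rw [← hc3, ← Finset.card_univ]
        exact Finset.card_le_card (Finset.subset_univ _)
      refine key W₁ (↥((Finset.univ : Finset T) \ {W₁, W₂, W₃}) ⊕ Unit)
        (Sum.elim u fun _ => w) ?_ ?_ ?_
      · rw [Fintype.card_sum, Fintype.card_coe, Fintype.card_unit,
          Finset.card_sdiff_of_subset (Finset.subset_univ _), hc3, Finset.card_univ]
        omega
      · rintro (W | k)
        · exact hu2 W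
        · exact hw1
      · intro W' hW'
        by_cases h2 : W' = W₂
        · exact ⟨Sum.inr (), by rw [h2]; exact hw2⟩
        · by_cases h3 : W' = W₃
          · exact ⟨Sum.inr (), by rw [h3]; exact hw3⟩
          · have hm : W' ∈ (Finset.univ : Finset T) \ {W₁, W₂, W₃} := by
              rw [Finset.mem_sdiff, Finset.mem_insert, Finset.mem_insert, Finset.mem_singleton]
              exact ⟨Finset.mem_univ _, by tauto⟩
            exact ⟨Sum.inl ⟨W', hm⟩, hu1 ⟨W', hm⟩⟩

end Pool.Agent.H27.TF
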