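import Pool.Agent.H77.TF.Stm

/-!
# Project TF (Terao over finite fields), module SAI (helper27)
-/

set_option autoImplicit false

open MvPolynomial Module

namespace Pool.Agent.H27.TF

open Pool.Agent.H77.TF

/-- the product of the linear forms of a simple arrangement divides what all the forms divide -/
theorem prod_dvd (hP : S_PRI) {K : Type} [Field K] {l : ℕ} {ν : Type} {A : ν → Fin l → K}
    (hA : Simple A) (s : Finset ν) {f : MvPolynomial (Fin l) K} (hf : ∀ i ∈ s, lin (A i) ∣ f) :
    ∏ i ∈ s, lin (A i) ∣ f := by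
  classical
  induction s using Finset.induction_on with
  | empty => simp
  | insert i s hi ih =>
    obtain ⟨m, hm⟩ := ih fun j hj => hf j (Finset.mem_insert_of_mem hj)
    have hpr := (hP K l (A i) (hA.1 i))
    have h1 : lin (A i) ∣ (∏ j ∈ s, lin (A j)) * m := hm ▸ hf i (Finset.mem_insert_self _ _)
    rcases hpr.1.dvd_or_dvd h1 with h2 | h2
    · obtain ⟨j, hj, h3⟩ := (hpr.1.dvd_finsetProd_iff _).1 h2
      obtain ⟨c, hc⟩ := hpr.2 _ h3
      exact absurd hc (hA.2 j i (fun h => hi (h ▸ hj)) c)
    · obtain ⟨m', hm'⟩ := h2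
      rw [Finset.prod_insert hi, hm, hm']
      exact ⟨m', by ring⟩

theorem sai (hP : S_PRI) (hD : S_DET) : S_SAI := by
  classical
  intro K _ l ν _ A hA w c hc hw hdet
  have hlin : ∀ i, lin (A i) ≠ 0 := fun i => (hP K l (A i) (hA.1 i)).1.ne_zero
  have hprod : ∏ i, lin (A i) ≠ 0 := Finset.prod_ne_zero_iff.2 fun i _ => hlin i
  have hCc : (C c : MvPolynomial (Fin l) K) ≠ 0 := by
    rw [Ne, C_eq_zero]; exact hc
  have hdet0 : (Matrix.of w).det ≠ 0 := by
    rw [hdet]; exact mul_ne_zero hCc hprod
  -- linear independence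
  have hli : LinearIndependent (MvPolynomial (Fin l) K) (fun k => (⟨w k, hw k⟩ : LD A)) := by
    rw [Fintype.linearIndependent_iff]
    intro g hg
    have h1 : Matrix.vecMul g (Matrix.of w) = 0 := by
      funext j
      have h2 := congrArg (fun x : LD A => (x : Fin l → MvPolynomial (Fin l) K) j) hg
      simp only [Submodule.coe_sum, Submodule.coe_smul, Finset.sum_apply, Pi.smul_apply,
        smul_eq_mul, Submodule.coe_zero, Pi.zero_apply] at h2
      simpa [Matrix.vecMul, dotProduct] using h2
    exact fun i => congrFun (Matrix.eq_zero_of_vecMul_eq_zero hdet0 h1) i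
  -- generation
  have hgen : ∀ v ∈ LD A, ∃ r : Fin l → MvPolynomial (Fin l) K, v = ∑ k, r k • w k := by
    intro v hv
    have h1 : ∀ k, ∏ i, lin (A i) ∣ ((Matrix.of w).updateRow k v).det := by
      intro k
      refine prod_dvd hP hA Finset.univ fun i _ => ?_
      have h2 := hD K l (A i) (hA.1 i) ((Matrix.of w).updateRow k v) (fun k' => by
        by_cases h : k' = k
        · subst h
          rw [Matrix.updateRow_self]
          exact hv i
        · rw [Matrix.updateRow_ne h]
          exact hw k' i)
      exact h2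
    choose r hr using h1
    have h3 : (Matrix.of w).det • v = ∑ k, ((Matrix.of w).updateRow k v).det • w k := by
      have h4 : Matrix.vecMul (Matrix.vecMul v (Matrix.of w).adjugate) (Matrix.of w) =
          (Matrix.of w).det • v := by
        rw [Matrix.vecMul_vecMul, Matrix.adjugate_mul, Matrix.vecMul_smul, Matrix.vecMul_one]
      rw [← h4]
      have h5 : Matrix.vecMul v (Matrix.of w).adjugate =
          fun k => ((Matrix.of w).updateRow k v).det := by
        funext k
        rw [← Matrix.cramer_transpose_apply, Matrix.cramer_eq_adjugate_mulVec,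
          ← Matrix.adjugate_transpose, Matrix.mulVec_transpose]
      rw [h5]
      funext j
      simp [Matrix.vecMul, dotProduct, Finset.sum_apply]
    refine ⟨fun k => C c⁻¹ * r k, ?_⟩
    have h6 : (∏ i, lin (A i)) • ((C c : MvPolynomial (Fin l) K) • v) = (∏ i, lin (A i)) • ∑ k, r k • w k := by
      rw [smul_smul, mul_comm, ← hdet, h3, Finset.smul_sum]
      refine Finset.sum_congr rfl fun k _ => ?_
      rw [hr, smul_smul]
    have h7 : (C c : MvPolynomial (Fin l) K) • v = ∑ k, r k • w k := by
      funext j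
      have h8 := congrFun h6 j
      simp only [Pi.smul_apply, smul_eq_mul] at h8
      simpa using mul_left_cancel₀ hprod h8
    have h9 : v = (C c⁻¹ : MvPolynomial (Fin l) K) • ((C c : MvPolynomial (Fin l) K) • v) := by
      rw [smul_smul, ← C_mul, inv_mul_cancel₀ hc, C_1, one_smul]
    rw [h9, h7, Finset.smul_sum]
    refine Finset.sum_congr rfl fun k _ => ?_
    rw [smul_smul]
  refine ⟨Basis.mk hli ?_, fun k => ?_⟩
  · rintro ⟨v, hv⟩ -
    obtain ⟨r, hr⟩ := hgen v hv
    have h1 : (⟨v, hv⟩ : LD A) = ∑ k, r k • (⟨w k, hw k⟩ : LD A) := by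
      apply Subtype.ext
      rw [Submodule.coe_sum]
      exact hr
    rw [h1]
    exact Submodule.sum_mem _ fun k _ => Submodule.smul_mem _ _
      (Submodule.subset_span (Set.mem_range_self k))
  · rw [Basis.mk_apply]

end Pool.Agent.H27.TF
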