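import Pool.Agent.H27.TF.Cnt
import Pool.Agent.H77.TF.Stm2

/-!
# Project TG (Terao over finite fields), module CN2 (helper27)
-/

set_option autoImplicit false

open MvPolynomial Module

namespace Pool.Agent.H27.TF

open Pool.Agent.H77.TF

theorem cn2 (hP : S_PRI) (hD : S_DET) (hM : S_MOO) (hC : S_CFS) : S_CN2 := by
  classical
  intro K _ _ l ν _ A e hl hA he hthr
  by_contra hcon
  push Not at hcon
  obtain ⟨b, hb⟩ := he
  obtain ⟨c, hc1, hc2, -⟩ := hC K l ν A e b hb
  have hlin : ∀ i, lin (A i) ≠ 0 := fun i => (hP K l (A i) (hA.1 i)).1.ne_zero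
  have hprod : ∏ i, lin (A i) ≠ 0 := Finset.prod_ne_zero_iff.2 fun i _ => hlin i
  have hdb := det_basis A hprod b
  -- `n ≤ ∑ e j`
  have hn : Fintype.card ν ≤ ∑ j, e j := by
    obtain ⟨m, hm⟩ : ∏ i, lin (A i) ∣
        (Matrix.of fun j => (b j : Fin l → MvPolynomial (Fin l) K)).det :=
      prod_dvd hP hA Finset.univ fun i _ => hD K l (A i) (hA.1 i) _ fun k => (b k).2 i
    have h1 := (det_hom hb).totalDegree hdb
    have h2 : (∏ i, lin (A i)).totalDegree = Fintype.card ν := by
      have h3 := IsHomogeneous.prod Finset.univ (fun i => lin (A i)) (fun _ => 1)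
        fun i _ => lin_hom (A i)
      rw [h3.totalDegree hprod]
      simp
    have hm0 : m ≠ 0 := by
      rintro rfl
      rw [mul_zero] at hm
      exact hdb hm
    rw [hm, totalDegree_mul_of_isDomain hprod hm0, h2] at h1
    omega
  -- the permutation
  have hdc : (Matrix.of fun (k : Fin l) (j : Fin l) => c k j).det ≠ 0 := by
    intro h0
    have h1 : (Matrix.of fun (k : Fin l) (i : Fin l) => frob K l k i) =
        (Matrix.of fun (k : Fin l) (j : Fin l) => c k j) *
          (Matrix.of fun j => (b j : Fin l → MvPolynomial (Fin l) K)) := by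
      ext1 k i
      rw [Matrix.mul_apply, Matrix.of_apply, hc1 k, Finset.sum_apply]
      rfl
    have h2 := congrArg Matrix.det h1
    rw [Matrix.det_mul, h0, zero_mul] at h2
    exact det_frob hM K l h2
  obtain ⟨σ, hσ⟩ : ∃ σ : Equiv.Perm (Fin l), ∀ i, c (σ i : Fin l) i ≠ 0 := by
    by_contra h
    push Not at h
    refine hdc ?_
    rw [Matrix.det_apply]
    refine Finset.sum_eq_zero fun σ _ => ?_
    obtain ⟨i, hi⟩ := h σ
    rw [Finset.prod_eq_zero (Finset.mem_univ i) (by rw [Matrix.of_apply]; exact hi), smul_zero]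
  have he1 : ∀ i, e i ≤ Fintype.card K ^ ((σ i : Fin l) : ℕ) := by
    intro i
    by_contra h
    push Not at h
    exact hσ i (hc2 _ _ h)
  have he2 : ∑ j, e j ≤ ∑ k : Fin l, min (Fintype.card K ^ (k : ℕ)) (Fintype.card K ^ (l - 2) - 2) := by
    rw [← Equiv.sum_comp σ (fun k : Fin l =>
      min (Fintype.card K ^ (k : ℕ)) (Fintype.card K ^ (l - 2) - 2))]
    refine Finset.sum_le_sum fun i _ => le_min (he1 i) ?_
    have := hcon i
    omega
  -- the sum
  obtain ⟨r, rfl⟩ : ∃ r, l = r + 3 := ⟨l - 3, by omega⟩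
  have hq : 0 < Fintype.card K := Fintype.card_pos
  have hq1 : 1 < Fintype.card K := Fintype.one_lt_card
  rw [Fin.sum_univ_eq_sum_range
    (fun k => min (Fintype.card K ^ k) (Fintype.card K ^ (r + 3 - 2) - 2)),
    Finset.sum_range_succ, Finset.sum_range_succ, show r + 3 - 2 = r + 1 by omega] at he2
  have h3 : ∑ k ∈ Finset.range (r + 1), min (Fintype.card K ^ k) (Fintype.card K ^ (r + 1) - 2) ≤
      ∑ k ∈ Finset.range (r + 1), Fintype.card K ^ k :=
    Finset.sum_le_sum fun k _ => min_le_left _ _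
  have h4 : ∑ k ∈ Finset.range (r + 1), Fintype.card K ^ k =
      1 + ∑ k ∈ Finset.Ico 1 (r + 1), Fintype.card K ^ k := by
    rw [Finset.range_eq_Ico, Finset.sum_eq_sum_Ico_succ_bot (by omega), pow_zero]
  have h5 := min_le_right (Fintype.card K ^ (r + 1)) (Fintype.card K ^ (r + 1) - 2)
  have h6 := min_le_right (Fintype.card K ^ (r + 1 + 1)) (Fintype.card K ^ (r + 1) - 2)
  have h7 : 2 ≤ Fintype.card K ^ (r + 1) := by
    have h8 := Nat.one_lt_pow (Nat.succ_ne_zero r) hq1
    exact h8
  unfold thr at hthr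
  rw [show r + 3 - 2 = r + 1 by omega] at hthr
  omega

end Pool.Agent.H27.TF
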