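import Pool.Agent.H27.TF.Sai
import Pool.Agent.H77.TF.Pri
import Pool.Agent.H77.TF.Stm3

/-!
# Project TC (Terao over finite fields, dimension 3), module DD3 (helper27)
-/

set_option autoImplicit false

open MvPolynomial Module

namespace Pool.Agent.H27.TF

open Pool.Agent.H77.TF

/-- the linear form does not divide the complementary minor -/
theorem not_dvd_minor {K : Type} [Field K] [Fintype K] (a : Fin 3 → K) (j s t : Fin 3)
    (hj : a j ≠ 0) (hjs : j ≠ s) (hjt : j ≠ t) (hst : s ≠ t) :
    ¬ lin a ∣ X s * X t ^ Fintype.card K - X t * X s ^ Fintype.card K := by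
  classical
  rintro ⟨m, hm⟩
  let y : Fin 3 → Polynomial K := fun k => if k = s then 1 else if k = t then Polynomial.X else
    -(Polynomial.C ((a j)⁻¹) * (Polynomial.C (a s) + Polynomial.C (a t) * Polynomial.X))
  have hys : y s = 1 := by simp [y]
  have hyt : y t = Polynomial.X := by simp [y, hst.symm]
  have hyj : y j = -(Polynomial.C ((a j)⁻¹) * (Polynomial.C (a s) +
      Polynomial.C (a t) * Polynomial.X)) := by simp [y, hjs, hjt]
  have h1 : aeval y (lin a) = 0 := by
    have h2 : aeval y (lin a) = ∑ i, Polynomial.C (a i) * y i := by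
      unfold lin
      rw [map_sum]
      refine Finset.sum_congr rfl fun i _ => ?_
      rw [map_mul, aeval_X, algHom_C]
      rfl
    have h3 : (Finset.univ : Finset (Fin 3)) = {j, s, t} := by
      symm
      apply Finset.eq_univ_of_card
      rw [Finset.card_eq_three.2 ⟨j, s, t, hjs, hjt, hst, rfl⟩, Fintype.card_fin]
    rw [h2, h3, Finset.sum_insert (by simp [hjs, hjt]), Finset.sum_insert (by simp [hst]),
      Finset.sum_singleton, hys, hyt, hyj]
    have h4 : Polynomial.C (a j) * Polynomial.C ((a j)⁻¹) = 1 := by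
      rw [← Polynomial.C_mul, mul_inv_cancel₀ hj, Polynomial.C_1]
    linear_combination (-(Polynomial.C (a s) + Polynomial.C (a t) * Polynomial.X)) * h4
  have h2 := congrArg (aeval y) hm
  rw [map_mul, h1, zero_mul, map_sub, map_mul, map_mul, map_pow, map_pow, aeval_X, aeval_X,
    hys, hyt, one_pow, one_mul, mul_one] at h2
  exact FiniteField.X_pow_card_sub_X_ne_zero K (Fintype.one_lt_card (α := K)) h2

theorem d3_eq {K : Type} [Field K] [Fintype K] (v : Fin 3 → MvPolynomial (Fin 3) K) :
    D3 v = X 0 * (X 1 ^ Fintype.card K * v 2 - X 2 ^ Fintype.card K * v 1) -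
      X 1 * (X 0 ^ Fintype.card K * v 2 - X 2 ^ Fintype.card K * v 0) +
      X 2 * (X 0 ^ Fintype.card K * v 1 - X 1 ^ Fintype.card K * v 0) := by
  unfold D3
  rw [Matrix.det_fin_three]
  simp only [Matrix.of_apply, Matrix.cons_val_zero, Matrix.cons_val_one, Matrix.cons_val,
    frob, pow_zero, pow_one]
  ring

theorem lin_dvd_d3 (hP : S_PRI) {K : Type} [Field K] [Fintype K] {a : Fin 3 → K} (ha : a ≠ 0)
    {v : Fin 3 → MvPolynomial (Fin 3) K} (h : lin a ∣ D3 v) : lin a ∣ evl a v := by
  have hpr := (hP K 3 a ha).1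
  have h0 : evl a (frob K 3 0) = C (a 0) * X 0 + C (a 1) * X 1 + C (a 2) * X 2 := by
    unfold evl
    rw [Fin.sum_univ_three]
    simp [frob]
  have h1 : evl a (frob K 3 1) = C (a 0) * X 0 ^ Fintype.card K + C (a 1) * X 1 ^ Fintype.card K +
      C (a 2) * X 2 ^ Fintype.card K := by
    unfold evl
    rw [Fin.sum_univ_three]
    simp [frob]
  have h2 : evl a v = C (a 0) * v 0 + C (a 1) * v 1 + C (a 2) * v 2 := by
    unfold evl
    rw [Fin.sum_univ_three]
  have d0 := evl_frob_dvd a 0
  have d1 := evl_frob_dvd a 1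
  obtain ⟨j, hj⟩ := Function.ne_iff.1 ha
  rw [Pi.zero_apply] at hj
  fin_cases j
  · have key : C (a 0) * D3 v = evl a (frob K 3 0) *
        (X 1 ^ Fintype.card K * v 2 - X 2 ^ Fintype.card K * v 1) -
        evl a (frob K 3 1) * (X 1 * v 2 - X 2 * v 1) +
        evl a v * (X 1 * X 2 ^ Fintype.card K - X 2 * X 1 ^ Fintype.card K) := by
      rw [d3_eq, h0, h1, h2]
      ring
    have h3 : lin a ∣ evl a v * (X 1 * X 2 ^ Fintype.card K - X 2 * X 1 ^ Fintype.card K) := by
      have h4 : evl a v * (X 1 * X 2 ^ Fintype.card K - X 2 * X 1 ^ Fintype.card K) =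
          C (a 0) * D3 v - (evl a (frob K 3 0) *
        (X 1 ^ Fintype.card K * v 2 - X 2 ^ Fintype.card K * v 1) -
        evl a (frob K 3 1) * (X 1 * v 2 - X 2 * v 1)) := by rw [key]; ring
      rw [h4]
      exact dvd_sub (dvd_mul_of_dvd_right h _)
        (dvd_sub (dvd_mul_of_dvd_left d0 _) (dvd_mul_of_dvd_left d1 _))
    exact (hpr.dvd_or_dvd h3).resolve_right
      (not_dvd_minor a 0 1 2 hj (by decide) (by decide) (by decide))
  · have key : C (a 1) * D3 v = -(evl a (frob K 3 0) *
        (X 0 ^ Fintype.card K * v 2 - X 2 ^ Fintype.card K * v 0)) +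
        evl a (frob K 3 1) * (X 0 * v 2 - X 2 * v 0) -
        evl a v * (X 0 * X 2 ^ Fintype.card K - X 2 * X 0 ^ Fintype.card K) := by
      rw [d3_eq, h0, h1, h2]
      ring
    have h3 : lin a ∣ evl a v * (X 0 * X 2 ^ Fintype.card K - X 2 * X 0 ^ Fintype.card K) := by
      have h4 : evl a v * (X 0 * X 2 ^ Fintype.card K - X 2 * X 0 ^ Fintype.card K) =
          -(C (a 1) * D3 v) + (-(evl a (frob K 3 0) *
        (X 0 ^ Fintype.card K * v 2 - X 2 ^ Fintype.card K * v 0)) +
        evl a (frob K 3 1) * (X 0 * v 2 - X 2 * v 0)) := by rw [key]; ring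
      rw [h4]
      exact dvd_add (dvd_mul_of_dvd_right h _).neg_right
        (dvd_add (dvd_mul_of_dvd_left d0 _).neg_right (dvd_mul_of_dvd_left d1 _))
    exact (hpr.dvd_or_dvd h3).resolve_right
      (not_dvd_minor a 1 0 2 hj (by decide) (by decide) (by decide))
  · have key : C (a 2) * D3 v = evl a (frob K 3 0) *
        (X 0 ^ Fintype.card K * v 1 - X 1 ^ Fintype.card K * v 0) -
        evl a (frob K 3 1) * (X 0 * v 1 - X 1 * v 0) +
        evl a v * (X 0 * X 1 ^ Fintype.card K - X 1 * X 0 ^ Fintype.card K) := by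
      rw [d3_eq, h0, h1, h2]
      ring
    have h3 : lin a ∣ evl a v * (X 0 * X 1 ^ Fintype.card K - X 1 * X 0 ^ Fintype.card K) := by
      have h4 : evl a v * (X 0 * X 1 ^ Fintype.card K - X 1 * X 0 ^ Fintype.card K) =
          C (a 2) * D3 v - (evl a (frob K 3 0) *
        (X 0 ^ Fintype.card K * v 1 - X 1 ^ Fintype.card K * v 0) -
        evl a (frob K 3 1) * (X 0 * v 1 - X 1 * v 0)) := by rw [key]; ring
      rw [h4]
      exact dvd_sub (dvd_mul_of_dvd_right h _)
        (dvd_sub (dvd_mul_of_dvd_left d0 _) (dvd_mul_of_dvd_left d1 _))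
    exact (hpr.dvd_or_dvd h3).resolve_right
      (not_dvd_minor a 2 0 1 hj (by decide) (by decide) (by decide))

theorem dd3 (hP : S_PRI) (hD : S_DET) : S_DD3 := by
  classical
  intro K _ _ ν _ A hA v
  constructor
  · intro hv
    refine prod_dvd hP hA Finset.univ fun i _ => hD K 3 (A i) (hA.1 i) _ fun k => ?_
    fin_cases k
    · exact evl_frob_dvd _ _
    · exact evl_frob_dvd _ _
    · exact hv i
  · intro h i
    exact lin_dvd_d3 hP (hA.1 i) ((Finset.dvd_prod_of_mem _ (Finset.mem_univ i)).trans h)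

end Pool.Agent.H27.TF
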